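import Pool.Agent.Helper38.TR.Blk
import Pool.Agent.Helper67.TR.Cmp
import Pool.Agent.Helper21.MH.Hodge2
import Pool.Agent.Helper98.TR.Main4
import Pool.Agent.Helper98.MH.Sml3
import Pool.Agent.Helper21.MH.Mul

/-!
Project TR (MP_b8862a_ag): a block of a polarised Hodge structure all of whose endomorphisms are self-adjoint, with a
dominating middle number, is full.
-/

set_option linter.unusedSectionVars false

open Matrix

namespace MH

variable {n : Type*} [Fintype n] [DecidableEq n]
variable {m : ℤ} {Q : Matrix n n ℚ} {S : Finset ℤ} {P : ℤ → Matrix n n ℂ}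

/-- `cj` respects equations with the hermitian adjoint -/
lemma h80_cj_herm {B Bi e M : Matrix n n ℂ} (h1 : B * Bi = 1) (hM : M = Bᴴ * B) (he : eᴴ * M = M * e) :
    (cj B Bi e)ᴴ = cj B Bi e := by
  subst hM
  have e2 : Biᴴ * Bᴴ = 1 := by rw [← Matrix.conjTranspose_mul, h1, Matrix.conjTranspose_one]
  unfold cj
  rw [Matrix.conjTranspose_mul, Matrix.conjTranspose_mul]
  calc Biᴴ * (eᴴ * Bᴴ) = Biᴴ * (eᴴ * (Bᴴ * B)) * Bi := by
        rw [mul_assoc Biᴴ, mul_assoc eᴴ, mul_assoc Bᴴ, h1, mul_one]
    _ = Biᴴ * (Bᴴ * B * e) * Bi := by rw [he]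
    _ = (Biᴴ * Bᴴ) * B * e * Bi := by simp only [mul_assoc]
    _ = B * e * Bi := by rw [e2, one_mul]

/-- rank of a compression -/
lemma h80_rank_cmp {k : Type} [Fintype k] [DecidableEq k] {w : Matrix n k ℂ} {e : Matrix n n ℂ}
    (hw : wᴴ * w = 1) (hww : w * wᴴ = e) {F : Matrix n n ℂ} (hF : F * F = F) (hc : F * e = e * F) :
    (wᴴ * F * w).rank = (e * F).rank ∧ (wᴴ * F * w) * (wᴴ * F * w) = wᴴ * F * w := by
  have hwe : e * w = w := by rw [← hww, Matrix.mul_assoc, hw, Matrix.mul_one]
  have hee : e * e = e := by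
    conv_lhs => rw [← hww, ← Matrix.mul_assoc, hww, hwe]
    exact hww
  have h1 : (wᴴ * F * w) * (wᴴ * F * w) = wᴴ * F * w := by
    calc (wᴴ * F * w) * (wᴴ * F * w) = wᴴ * F * (w * wᴴ) * F * w := by simp only [Matrix.mul_assoc]
      _ = wᴴ * (F * (e * F)) * w := by rw [hww]; simp only [Matrix.mul_assoc]
      _ = wᴴ * F * w := by
        rw [← hc, ← Matrix.mul_assoc F F e, hF, Matrix.mul_assoc wᴴ, Matrix.mul_assoc F, hwe, ← Matrix.mul_assoc]
  refine ⟨?_, h1⟩
  have h2 : (e * F) * (e * F) = e * F := by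
    calc (e * F) * (e * F) = e * (F * e) * F := by simp only [Matrix.mul_assoc]
      _ = (e * e) * (F * F) := by rw [hc]; simp only [Matrix.mul_assoc]
      _ = e * F := by rw [hee, hF]
  have h3 : (wᴴ * F * w).trace = (e * F).trace := by
    rw [Matrix.trace_mul_comm, ← Matrix.mul_assoc, hww]
  rw [trace_eq_rank h1, trace_eq_rank h2] at h3
  exact_mod_cast h3

lemma h80_rank_zero {k : Type*} [Fintype k] [DecidableEq k] {M : Matrix k k ℂ} (hM : M.rank = 0) : M = 0 := by
  rw [Matrix.rank, Submodule.finrank_eq_zero, LinearMap.range_eq_bot] at hM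
  have h3 : Matrix.toLin' M = 0 := hM
  exact (LinearEquiv.map_eq_zero_iff _).1 h3

lemma h80_map_mul (σ : ℂ ≃+* ℂ) (X Y : Matrix n n ℂ) : (X * Y).map σ = X.map σ * Y.map σ := by
  have := Matrix.map_mul (L := X) (M := Y) (f := (σ : ℂ →+* ℂ))
  exact this

lemma h80_map_symm (σ : ℂ ≃+* ℂ) (X : Matrix n n ℂ) : (X.map σ.symm).map σ = X := by
  ext i j
  simp

/-- the projections of a conjugate -/
lemma h80_EE_aut (B Bi : Matrix n n ℂ) (σ : ℂ ≃+* ℂ) {p : ℤ} (hp : p ∈ S) :
    EE m S (fun p => (P p).map σ) B Bi ((p - m : ℤ) : ℝ) = cj B Bi ((P p).map σ) := by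
  unfold EE
  rw [Finset.sum_eq_single p]
  · intro q hq hqp
    exfalso
    apply hqp
    have h1 : ((q - m : ℤ) : ℝ) = ((p - m : ℤ) : ℝ) := (Finset.mem_filter.1 hq).2
    have h2 : q - m = p - m := by exact_mod_cast h1
    omega
  · intro h
    exact (h (Finset.mem_filter.2 ⟨hp, rfl⟩)).elim

/-- the numbers of a block -/
lemma h80_rank_two (H : IsHS m Q S P) (hSA : SelfAdj Q P) {e : Matrix n n ℂ} (he : IsBlock P e) :
    e.rank = (e * P m).rank + 2 * ∑ p ∈ S.filter (fun p => m < p), (e * P p).rank := by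
  classical
  have h0 : ∀ p, p ∉ S → (e * P p).rank = 0 := by
    intro p hp
    rw [H.supp p hp, mul_zero, Matrix.rank_zero]
  have h1 := he.rank_sum H
  -- split the sum
  have h2 : ∑ p ∈ S, (e * P p).rank = ∑ p ∈ S.filter (fun p => p = m), (e * P p).rank +
      (∑ p ∈ S.filter (fun p => m < p), (e * P p).rank + ∑ p ∈ S.filter (fun p => p < m), (e * P p).rank) := by
    rw [Finset.sum_filter, Finset.sum_filter, Finset.sum_filter, ← Finset.sum_add_distrib, ← Finset.sum_add_distrib]
    refine Finset.sum_congr rfl fun p _ => ?_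
    rcases lt_trichotomy p m with h | h | h
    · rw [if_neg (by omega), if_neg (by omega), if_pos h]
      omega
    · rw [if_pos h, if_neg (by omega), if_neg (by omega)]
      omega
    · rw [if_neg (by omega), if_pos h, if_neg (by omega)]
      omega
  have h3 : ∑ p ∈ S.filter (fun p => p = m), (e * P p).rank = (e * P m).rank := by
    by_cases hm : m ∈ S
    · rw [Finset.filter_eq' S m, if_pos hm, Finset.sum_singleton]
    · rw [Finset.filter_eq' S m, if_neg hm, Finset.sum_empty, h0 m hm]
  have h4 : ∑ p ∈ S.filter (fun p => p < m), (e * P p).rank = ∑ p ∈ S.filter (fun p => m < p), (e * P p).rank := by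
    have e1 : ∀ (T : Finset ℤ), S ⊆ T → ∀ f : ℤ → Prop, ∀ _ : DecidablePred f,
        ∑ p ∈ S.filter f, (e * P p).rank = ∑ p ∈ T.filter f, (e * P p).rank := by
      intro T hT f _
      refine Finset.sum_subset (Finset.filter_subset_filter _ hT) ?_
      intro p hp hp'
      apply h0
      intro hS
      exact hp' (Finset.mem_filter.2 ⟨hS, (Finset.mem_filter.1 hp).2⟩)
    set T := S ∪ S.image (fun p => 2 * m - p) with hT
    rw [e1 T Finset.subset_union_left _ _, e1 T Finset.subset_union_left (fun p => m < p) _]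
    refine Finset.sum_nbij' (fun p => 2 * m - p) (fun p => 2 * m - p) ?_ ?_ ?_ ?_ ?_
    · intro p hp
      rw [Finset.mem_filter] at hp ⊢
      refine ⟨?_, by omega⟩
      rcases Finset.mem_union.1 hp.1 with h | h
      · exact Finset.mem_union_right _ (Finset.mem_image_of_mem _ h)
      · obtain ⟨q, hq, rfl⟩ := Finset.mem_image.1 h
        refine Finset.mem_union_left _ ?_
        rwa [sub_sub_cancel]
    · intro p hp
      rw [Finset.mem_filter] at hp ⊢
      refine ⟨?_, by omega⟩
      rcases Finset.mem_union.1 hp.1 with h | h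
      · exact Finset.mem_union_right _ (Finset.mem_image_of_mem _ h)
      · obtain ⟨q, hq, rfl⟩ := Finset.mem_image.1 h
        refine Finset.mem_union_left _ ?_
        rwa [sub_sub_cancel]
    · intro p _
      ring
    · intro p _
      ring
    · intro p _
      exact (he.rank_symm H hSA p).symm
  omega

/-- a number outside of the middle is at most `s` -/
lemma h80_rank_le (H : IsHS m Q S P) (hSA : SelfAdj Q P) {e : Matrix n n ℂ} (he : IsBlock P e) {p : ℤ} (hp : p ≠ m) :
    (e * P p).rank ≤ ∑ p ∈ S.filter (fun p => m < p), (e * P p).rank := by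
  have key : ∀ p, m < p → (e * P p).rank ≤ ∑ p ∈ S.filter (fun p => m < p), (e * P p).rank := by
    intro p hp
    by_cases hS : p ∈ S
    · exact Finset.single_le_sum (f := fun p => (e * P p).rank) (fun _ _ => Nat.zero_le _)
        (Finset.mem_filter.2 ⟨hS, hp⟩)
    · rw [H.supp p hS, mul_zero, Matrix.rank_zero]
      exact Nat.zero_le _
  rcases lt_or_gt_of_ne hp with h | h
  · rw [← he.rank_symm H hSA p]
    exact key _ (by omega)
  · exact key p h

/-- The theorem for a block. -/
theorem block_full (H : IsHS m Q S P) (hSA : SelfAdj Q P) (hdom : DomAll m S P) {e : Matrix n n ℂ}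
    (he : IsBlock P e) (hD : Dom m S (fun p => (e * P p).rank)) {X : Matrix n n ℂ} (hX : e * X * e = X)
    (hs : Xᵀ * toC Q + toC Q * X = 0) : ∃ Y ∈ LH Q S P, Y * e = X := by
  classical
  obtain ⟨B, Bi, Qi, h1, h2, h3, h4, hM⟩ := H.exists_basis
  have hPP : ∀ p, P p * P p = P p := fun p => by rw [H.mul, if_pos rfl]
  have heP : ∀ p, e * P p = P p * e := EC_P he.mem
  have heQ : eᵀ * toC Q = toC Q * e := EC_adj hSA he.mem
  have heh : eᴴ = eᵀ := by
    have := he.real H hSA
    calc eᴴ = (e.map (starRingEnd ℂ))ᵀ := rfl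
      _ = eᵀ := by rw [this]
  have heC : e * Cs m S P = Cs m S P * e := by
    unfold Cs
    rw [Finset.mul_sum, Finset.sum_mul]
    refine Finset.sum_congr rfl fun p _ => ?_
    rw [mul_smul_comm, smul_mul_assoc, heP]
  set e' := cj B Bi e with he'
  have hee' : e' * e' = e' := by rw [he', cj_mul h2, he.idem]
  have hes' : e'ᴴ = e' := by
    refine h80_cj_herm h1 hM ?_
    rw [heh, ← mul_assoc, heQ, mul_assoc, heC, mul_assoc]
  have hte' : tau B Bi (toC Q) Qi e' = e' := by
    rw [tau_apply, he', cj_cj h2, mul_assoc, heQ, ← mul_assoc, h4, one_mul]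
  have hc' : ∀ x ∈ LB Q S P B Bi, x * e' = e' * x := by
    intro x hx
    have h5 := LH_EC H (mem_LB.1 hx) he.mem
    have h6 := congrArg (cj B Bi) h5
    rwa [← cj_mul h2, ← cj_mul h2, cj_cj h1] at h6
  have hE' : ∀ μ, EE m S P B Bi μ * e' = e' * EE m S P B Bi μ := by
    intro μ
    unfold EE
    rw [Finset.mul_sum, Finset.sum_mul]
    refine Finset.sum_congr rfl fun p _ => ?_
    rw [he', cj_mul h2, cj_mul h2, heP]
  have hirr' : ∀ T, e' * T * e' = T → (∀ x ∈ LB Q S P B Bi, T * x = x * T) → ∃ c : ℂ, T = c • e' := by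
    intro T hT hc
    have h5 : cj Bi B T ∈ EC P := by
      refine EC_of_LH H fun Y hY => ?_
      have h6 := hc (cj B Bi Y) (by rw [mem_LB, cj_cj h2]; exact hY)
      have h7 := congrArg (cj Bi B) h6
      rwa [← cj_mul h1, ← cj_mul h1, cj_cj h2] at h7
    obtain ⟨c, hc⟩ := he.min _ h5
    refine ⟨c, ?_⟩
    have h6 := congrArg (cj B Bi) hc
    rw [← cj_mul h2, cj_cj h1, cj_smul] at h6
    calc T = e' * T * e' := hT.symm
      _ = e' * (T * e') := by rw [mul_assoc]
      _ = e' * (c • e') := by rw [h6]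
      _ = c • e' := by rw [mul_smul_comm, hee']
  obtain ⟨κ, _, _, w, hκ, hw, hww⟩ : ∃ (κ : Type) (_ : Fintype κ) (_ : DecidableEq κ) (w : Matrix n κ ℂ),
      Fintype.card κ = e'.rank ∧ wᴴ * w = 1 ∧ w * wᴴ = e' := by
    obtain ⟨w, hw, hww⟩ := exists_onbE hee' hes'
    exact ⟨Fin e'.rank, inferInstance, inferInstance, w, Fintype.card_fin _, hw, hww⟩
  have D := (pre_of H h1 h2 h3 h4 hM).compress hee' hes' hte' hc' hE' hirr' hw hww
  have hwe : e' * w = w := by rw [← hww, Matrix.mul_assoc, hw, Matrix.mul_one]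
  have hwe2 : wᴴ * e' = wᴴ := by rw [← hww, ← Matrix.mul_assoc, hw, Matrix.one_mul]
  -- ranks of compressions of idempotents that commute with `e`
  have hrk : ∀ F : Matrix n n ℂ, F * F = F → F * e = e * F → (wᴴ * cj B Bi F * w).rank = (e * F).rank := by
    intro F hF hFe
    have h5 := (h80_rank_cmp hw hww (F := cj B Bi F) (by rw [cj_mul h2, hF])
      (by rw [he', cj_mul h2, cj_mul h2, hFe])).1
    rw [h5, he', cj_mul h2]
    refine rank_cj h1 h2 ?_
    calc (e * F) * (e * F) = e * (F * e) * F := by simp only [mul_assoc]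
      _ = (e * e) * (F * F) := by rw [hFe]; simp only [mul_assoc]
      _ = e * F := by rw [he.idem, hF]
  have r1 : ∀ p : ℤ, (wᴴ * EE m S P B Bi ((p - m : ℤ) : ℝ) * w).rank = (e * P p).rank := fun p => by
    rw [EE_int H]
    exact hrk _ (hPP p) (heP p).symm
  have r0 : (wᴴ * EE m S P B Bi 0 * w).rank = (e * P m).rank := by
    have := r1 m
    rwa [sub_self, Int.cast_zero] at this
  have rP : (Pp (fun μ => wᴴ * EE m S P B Bi μ * w) (LamS m S)).rank =
      ∑ p ∈ S.filter (fun p => m < p), (e * P p).rank := by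
    rw [D.rank_Pp]
    unfold LamS
    rw [Finset.sum_filter, Finset.sum_image (cast_inj m), Finset.sum_filter]
    refine Finset.sum_congr rfl fun p _ => ?_
    have e4 : (0 : ℝ) < ((p - m : ℤ) : ℝ) ↔ m < p := by
      rw [← Int.cast_zero, Int.cast_lt]
      omega
    simp only [e4, r1]
  have hs1 : 2 ≤ (Pp (fun μ => wᴴ * EE m S P B Bi μ * w) (LamS m S)).rank := by
    rw [rP]
    exact hD.two
  have hb1 : (Pp (fun μ => wᴴ * EE m S P B Bi μ * w) (LamS m S)).rank ^ 2 < (wᴴ * EE m S P B Bi 0 * w).rank := by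
    rw [rP, r0]
    exact hD.sq
  have hTP : TP (cpt w (tau B Bi (toC Q) Qi)) (cpL w wᴴ (LB Q S P B Bi)) (fun μ => wᴴ * EE m S P B Bi μ * w) := by
    · refine D.units3 (G := wᵀ * (Biᵀ * toC Q * Bi) * w) (Gi := wᴴ * (B * Qi * Bᵀ) * (wᴴ)ᵀ) ?_ ?_ ?_
        (fun hK => D.bound3 hK hs1) hs1 hb1
      · -- G * Gi = 1
        have e0 : (B * Qi * Bᵀ) * e'ᵀ * (Biᵀ * toC Q * Bi) = e' := by
          have e3 := hte'
          rw [tau_apply] at e3
          unfold cj at e3
          rw [Matrix.transpose_mul, Matrix.transpose_mul] at e3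
          calc (B * Qi * Bᵀ) * e'ᵀ * (Biᵀ * toC Q * Bi) = B * (Qi * (Bᵀ * (e'ᵀ * Biᵀ)) * toC Q) * Bi := by
                simp only [mul_assoc]
            _ = e' := e3
        calc wᴴ * (B * Qi * Bᵀ) * (wᴴ)ᵀ * (wᵀ * (Biᵀ * toC Q * Bi) * w)
            = wᴴ * ((B * Qi * Bᵀ) * (w * wᴴ)ᵀ * (Biᵀ * toC Q * Bi)) * w := by
              rw [Matrix.transpose_mul]
              simp only [Matrix.mul_assoc]
          _ = wᴴ * e' * w := by rw [hww, e0]
          _ = 1 := by rw [hwe2, hw]
      · rw [Matrix.transpose_mul, Matrix.transpose_mul, Matrix.transpose_mul, Matrix.transpose_mul,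
          Matrix.transpose_transpose, Matrix.transpose_transpose, H.Q_symm]
        simp only [Matrix.mul_assoc]
      · intro x
        show wᴴ * tau B Bi (toC Q) Qi (w * x * wᴴ) * w = _
        rw [tau_apply]
        unfold cj
        rw [Matrix.transpose_mul, Matrix.transpose_mul, Matrix.transpose_mul, Matrix.transpose_mul]
        simp only [Matrix.mul_assoc]
  have hx : cpt w (tau B Bi (toC Q) Qi) (wᴴ * cj B Bi X * w) = -(wᴴ * cj B Bi X * w) := by
    show wᴴ * tau B Bi (toC Q) Qi (w * (wᴴ * cj B Bi X * w) * wᴴ) * w = _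
    have e1 : w * (wᴴ * cj B Bi X * w) * wᴴ = cj B Bi X := by
      calc w * (wᴴ * cj B Bi X * w) * wᴴ = (w * wᴴ) * cj B Bi X * (w * wᴴ) := by simp only [Matrix.mul_assoc]
        _ = cj B Bi X := by rw [hww, he', cj_mul h2, cj_mul h2, hX]
    rw [e1, tau_apply, cj_cj h2, mul_assoc Qi, eq_neg_of_add_eq_zero_left hs, mul_neg, ← mul_assoc, h4, one_mul, cj_neg,
      Matrix.mul_neg, Matrix.neg_mul]
  have hmem : wᴴ * cj B Bi X * w ∈ cpL w wᴴ (LB Q S P B Bi) := by
    refine D.main_core3 hs1 hb1 hTP ?_ hx
    intro T hT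
    -- the matrix in the old coordinates
    set T' := w * T * wᴴ with hT'
    have hT'e : T' * e' = T' := by rw [hT', Matrix.mul_assoc, Matrix.mul_assoc, hwe2, ← Matrix.mul_assoc]
    have heT' : e' * T' = T' := by
      rw [hT', ← Matrix.mul_assoc, ← Matrix.mul_assoc, hwe]
    have hT0e : cj Bi B T' * e = cj Bi B T' := by
      have := congrArg (cj Bi B) hT'e
      rwa [← cj_mul h1, he', cj_cj h2] at this
    have heT0 : e * cj Bi B T' = cj Bi B T' := by
      have := congrArg (cj Bi B) heT'
      rwa [← cj_mul h1, he', cj_cj h2] at this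
    have hEC : cj Bi B T' ∈ EC P := by
      refine descentE H fun σ => ?_
      set h0 := ∑ p ∈ S, ((p - m : ℤ) : ℂ) • P p with hh0
      have hLH : h0.map σ ∈ LH Q S P := LH_aut σ H.h0_mem
      have hce : h0.map σ * e = e * h0.map σ := LH_EC H hLH he.mem
      have hf := he.aut σ.symm
      have hσP : ∀ p, e * (P p).map σ = (e.map σ.symm * P p).map σ := by
        intro p
        rw [h80_map_mul, h80_map_symm]
      have hσc : ∀ p, (P p).map σ * e = e * (P p).map σ := by
        intro p
        have h5 := EC_P hf.mem p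
        rw [hσP, h5, h80_map_mul, h80_map_symm]
      have hσid : ∀ p, (P p).map σ * (P p).map σ = (P p).map σ := by
        intro p
        rw [← h80_map_mul, hPP]
      have hfP : ∀ p, (e.map σ.symm * P p) * (e.map σ.symm * P p) = e.map σ.symm * P p := by
        intro p
        have h5 := EC_P hf.mem p
        calc (e.map σ.symm * P p) * (e.map σ.symm * P p) = e.map σ.symm * (P p * e.map σ.symm) * P p := by
              simp only [mul_assoc]
          _ = (e.map σ.symm * e.map σ.symm) * (P p * P p) := by rw [← h5]; simp only [mul_assoc]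
          _ = _ := by rw [hf.idem, hPP]
      have rσ : ∀ p, (e * (P p).map σ).rank = (e.map σ.symm * P p).rank := by
        intro p
        rw [hσP, rank_aut σ (hfP p)]
      rcases hdom _ hf with hunt | hdf
      · -- untouched
        have h5 : e * h0.map σ = 0 := by
          have h6 : e * h0.map σ = (e.map σ.symm * h0).map σ := by rw [h80_map_mul, h80_map_symm]
          have h7 : e.map σ.symm * h0 = 0 := by
            rw [hh0, Finset.mul_sum]
            refine Finset.sum_eq_zero fun p _ => ?_
            rw [mul_smul_comm]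
            by_cases hp : p = m
            · rw [hp, sub_self, Int.cast_zero, zero_smul]
            · rw [hunt p hp, smul_zero]
          rw [h6, h7]
          ext i j
          simp
        rw [← hT0e, mul_assoc, h5, mul_zero]
        rw [hT0e, ← heT0, ← mul_assoc, hce, h5, zero_mul]
      · -- touched
        have hSD : SD (wᴴ * cj B Bi (h0.map σ) * w) (fun μ => wᴴ * EE m S (fun p => (P p).map σ) B Bi μ * w)
            (LamS m S) := by
          have D1 := sd_aut H h1 h2 σ
          have hcE : ∀ μ, EE m S (fun p => (P p).map σ) B Bi μ * e' = e' * EE m S (fun p => (P p).map σ) B Bi μ := by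
            intro μ
            unfold EE
            rw [Finset.mul_sum, Finset.sum_mul]
            refine Finset.sum_congr rfl fun p _ => ?_
            rw [he', cj_mul h2, cj_mul h2, hσc]
          refine ⟨?_, ?_, ?_⟩
          · intro μ ν
            have h5 : (wᴴ * EE m S (fun p => (P p).map σ) B Bi μ * w) *
                (wᴴ * EE m S (fun p => (P p).map σ) B Bi ν * w) =
                wᴴ * (EE m S (fun p => (P p).map σ) B Bi μ * EE m S (fun p => (P p).map σ) B Bi ν) * w := by
              calc (wᴴ * EE m S (fun p => (P p).map σ) B Bi μ * w) *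
                  (wᴴ * EE m S (fun p => (P p).map σ) B Bi ν * w)
                  = wᴴ * (EE m S (fun p => (P p).map σ) B Bi μ * (w * wᴴ)) *
                    EE m S (fun p => (P p).map σ) B Bi ν * w := by simp only [Matrix.mul_assoc]
                _ = (wᴴ * e') * (EE m S (fun p => (P p).map σ) B Bi μ *
                    EE m S (fun p => (P p).map σ) B Bi ν) * w := by
                    rw [hww, hcE]
                    simp only [Matrix.mul_assoc]
                _ = _ := by rw [hwe2]
            rw [h5, D1.mul]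
            split_ifs
            · rfl
            · rw [Matrix.mul_zero, Matrix.zero_mul]
          · rw [← Matrix.sum_mul, ← Matrix.mul_sum, D1.sum, Matrix.mul_one, hw]
          · rw [D1.eq, Matrix.mul_sum, Matrix.sum_mul]
            refine Finset.sum_congr rfl fun μ _ => ?_
            rw [Matrix.mul_smul, Matrix.smul_mul]
        have hEp : ∀ p ∈ S, (wᴴ * EE m S (fun p => (P p).map σ) B Bi ((p - m : ℤ) : ℝ) * w).rank =
            (e.map σ.symm * P p).rank := by
          intro p hp
          rw [h80_EE_aut B Bi σ hp, hrk _ (hσid p) (hσc p), rσ]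
        have her : e'.rank = (e.map σ.symm).rank := by
          rw [he', rank_cj h1 h2 he.idem, rank_aut σ.symm he.idem]
        have hF0 : (wᴴ * EE m S (fun p => (P p).map σ) B Bi 0 * w).rank = (e.map σ.symm * P m).rank := by
          by_cases hm : m ∈ S
          · have h6 := hEp m hm
            rwa [sub_self, Int.cast_zero] at h6
          · rw [H.supp m hm, mul_zero, Matrix.rank_zero]
            rw [EE_other, Matrix.mul_zero, Matrix.zero_mul, Matrix.rank_zero]
            intro p hp h6
            have h7 : p - m = 0 := by exact_mod_cast h6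
            exact hm (by rwa [show m = p by omega])
        have h5 := hT (wᴴ * cj B Bi (h0.map σ) * w)
          ⟨cj B Bi (h0.map σ), by rw [mem_LB, cj_cj h2]; exact hLH, rfl⟩ _ _
          (∑ p ∈ S.filter (fun p => m < p), (e.map σ.symm * P p).rank) hSD ⟨by
            show _ < (wᴴ * EE m S (fun p => (P p).map σ) B Bi 0 * w).rank
            rw [hF0]
            exact hdf.sq, by
            show _ = (wᴴ * EE m S (fun p => (P p).map σ) B Bi 0 * w).rank + _
            rw [hκ, her, hF0]
            exact h80_rank_two H hSA hf, by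
            intro μ hμ
            show (wᴴ * EE m S (fun p => (P p).map σ) B Bi μ * w).rank ≤ _
            by_cases hμS : ∃ p ∈ S, ((p - m : ℤ) : ℝ) = μ
            · obtain ⟨p, hp, rfl⟩ := hμS
              have hpm : p ≠ m := by
                rintro rfl
                apply hμ
                simp
              rw [hEp p hp]
              exact h80_rank_le H hSA hf hpm
            · push Not at hμS
              rw [EE_other B Bi hμS, Matrix.mul_zero, Matrix.zero_mul, Matrix.rank_zero]
              exact Nat.zero_le _⟩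
        -- back to the old coordinates
        have hcE : cj B Bi (h0.map σ) * e' = e' * cj B Bi (h0.map σ) := by
          rw [he', cj_mul h2, cj_mul h2, hce]
        have h6 : T' * cj B Bi (h0.map σ) = cj B Bi (h0.map σ) * T' := by
          calc T' * cj B Bi (h0.map σ) = T' * e' * cj B Bi (h0.map σ) := by rw [hT'e]
            _ = w * T * (wᴴ * (cj B Bi (h0.map σ) * e')) := by
                rw [hcE, hT']
                simp only [Matrix.mul_assoc]
            _ = w * (T * (wᴴ * cj B Bi (h0.map σ) * w)) * wᴴ := by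
                rw [← hww]
                simp only [Matrix.mul_assoc]
            _ = w * ((wᴴ * cj B Bi (h0.map σ) * w) * T) * wᴴ := by rw [h5]
            _ = (e' * cj B Bi (h0.map σ)) * T' := by
                rw [← hww, hT']
                simp only [Matrix.mul_assoc]
            _ = cj B Bi (h0.map σ) * T' := by rw [← hcE, mul_assoc, heT']
        have h7 := congrArg (cj Bi B) h6
        rwa [← cj_mul h1, ← cj_mul h1, cj_cj h2] at h7
    obtain ⟨c, hc⟩ := he.min _ hEC
    refine ⟨c, ?_⟩
    rw [hT0e] at hc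
    have h8 := congrArg (cj B Bi) hc
    rw [cj_cj h1, cj_smul] at h8
    calc T = wᴴ * T' * w := by
          rw [hT']
          calc T = (wᴴ * w) * T * (wᴴ * w) := by rw [hw, Matrix.one_mul, Matrix.mul_one]
            _ = wᴴ * (w * T * wᴴ) * w := by simp only [Matrix.mul_assoc]
      _ = wᴴ * (c • e') * w := by rw [h8]
      _ = c • (wᴴ * e' * w) := by rw [Matrix.mul_smul, Matrix.smul_mul]
      _ = c • 1 := by rw [hwe2, hw]
  obtain ⟨y, hy, hyx⟩ := hmem
  refine ⟨cj Bi B y, mem_LB.1 hy, ?_⟩
  have h9 : y * e' = cj B Bi X := by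
    calc y * e' = e' * y * e' := by rw [← hc' y hy, mul_assoc, hee']
      _ = w * (wᴴ * y * w) * wᴴ := by rw [← hww]; simp only [Matrix.mul_assoc]
      _ = w * (wᴴ * cj B Bi X * w) * wᴴ := by rw [hyx]
      _ = e' * cj B Bi X * e' := by rw [← hww]; simp only [Matrix.mul_assoc]
      _ = cj B Bi X := by rw [he', cj_mul h2, cj_mul h2, hX]
  have h10 := congrArg (cj Bi B) h9
  rwa [← cj_mul h1, he', cj_cj h2, cj_cj h2] at h10

end MH
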